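import Pool.Agent.W837.GB.Defs

set_option autoImplicit false
open MeasureTheory Finset

namespace Pool.Agent.W721.GB
open Pool.Agent.W837.GB

lemma lag_bound {ι : Type} [DecidableEq ι] (T : Finset ι) (v : ι → ℂ) (hv : Set.InjOn v T)
    (φ : Polynomial ℂ) (hφ : φ.natDegree < T.card) (z : ℂ) :
    ‖φ.eval z‖ ≤ ∑ k ∈ T, ‖φ.eval (v k)‖ * ∏ l ∈ T.erase k, (‖z - v l‖ / ‖v k - v l‖) := by
  have hdeg : φ.degree < T.card :=
    lt_of_le_of_lt Polynomial.degree_le_natDegree (by exact_mod_cast hφ)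
  have h := Lagrange.eq_interpolate hv hdeg
  have h1 : φ.eval z = ∑ k ∈ T, φ.eval (v k) * ∏ l ∈ T.erase k, ((v k - v l)⁻¹ * (z - v l)) := by
    conv_lhs => rw [h]
    rw [Lagrange.interpolate_apply, Polynomial.eval_finsetSum]
    apply Finset.sum_congr rfl
    intro k _
    rw [Polynomial.eval_mul, Polynomial.eval_C, Lagrange.basis, Polynomial.eval_prod]
    congr 1
    apply Finset.prod_congr rfl
    intro l _
    simp [Lagrange.basisDivisor]
  rw [h1]
  refine le_trans (norm_sum_le _ _) (le_of_eq ?_)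
  apply Finset.sum_congr rfl
  intro k _
  rw [norm_mul, norm_prod]
  congr 1
  apply Finset.prod_congr rfl
  intro l _
  rw [norm_mul, norm_inv, div_eq_mul_inv, mul_comm]

/-- separated points -/
lemma greedy (S : Set ℝ) (r c : ℝ) (d : ℕ) (hr : 0 < r) (hc : 2 * d * r ≤ c)
    (hS : ENNReal.ofReal c < volume S) (m : ℕ) (hm : m ≤ d + 1) :
    ∃ T : Finset ℝ, T.card = m ∧ (∀ x ∈ T, x ∈ S) ∧ ∀ x ∈ T, ∀ y ∈ T, x ≠ y → r ≤ |x - y| := by
  induction m with
  | zero => exact ⟨∅, by simp, by simp, by simp⟩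
  | succ m ih =>
    obtain ⟨T, h1, h2, h3⟩ := ih (by omega)
    have hex : ∃ y ∈ S, ∀ x ∈ T, r ≤ |y - x| := by
      by_contra hcon
      push Not at hcon
      have hsub : S ⊆ ⋃ x ∈ T, Metric.ball x r := by
        intro y hy
        obtain ⟨x, hx, hxy⟩ := hcon y hy
        exact Set.mem_iUnion₂.2 ⟨x, hx, by rwa [Metric.mem_ball, Real.dist_eq]⟩
      have h4 : volume S ≤ ∑ x ∈ T, volume (Metric.ball x r) :=
        le_trans (measure_mono hsub) (measure_biUnion_finset_le _ _)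
      have h5 : ∑ x ∈ T, volume (Metric.ball x r) = ENNReal.ofReal (m * (2 * r)) := by
        simp only [Real.volume_ball, Finset.sum_const, h1, nsmul_eq_mul]
        rw [ENNReal.ofReal_mul (p := (m : ℝ)) (Nat.cast_nonneg _), ENNReal.ofReal_natCast]
      rw [h5] at h4
      have h6 : ENNReal.ofReal (m * (2 * r)) ≤ ENNReal.ofReal c := by
        apply ENNReal.ofReal_le_ofReal
        have : (m : ℝ) ≤ d := by exact_mod_cast (by omega : m ≤ d)
        nlinarith
      exact absurd (lt_of_lt_of_le hS (h4.trans h6)) (lt_irrefl _)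
    obtain ⟨y, hy, hyT⟩ := hex
    have hyn : y ∉ T := by
      intro h
      have := hyT y h
      simp at this
      linarith
    refine ⟨insert y T, ?_, ?_, ?_⟩
    · rw [Finset.card_insert_of_notMem hyn, h1]
    · intro x hx
      rcases Finset.mem_insert.1 hx with rfl | hx
      · exact hy
      · exact h2 x hx
    · intro x hx z hz hxz
      rcases Finset.mem_insert.1 hx with hx | hx <;> rcases Finset.mem_insert.1 hz with hz | hz
      · exact absurd (hx.trans hz.symm) hxz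
      · rw [hx]; exact hyT z hz
      · rw [hz, abs_sub_comm]; exact hyT x hx
      · exact h3 x hx z hz hxz

theorem sb1 : S_SB1 := by
  intro φ d h s hd hφ hh hh1 hs hs1
  by_contra hcon
  push Not at hcon
  set lam : ℝ := (h * s / (8 * d)) ^ d * ‖φ.eval 0‖ with hlam
  have hd0 : (0 : ℝ) < d := by exact_mod_cast hd
  have hd1 : (1 : ℝ) ≤ d := by exact_mod_cast hd
  have hr : 0 < s * h / (2 * d) := by positivity
  obtain ⟨T, hT1, hT2, hT3⟩ := greedy _ (s * h / (2 * d)) (s * h) d hr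
    (by field_simp; exact le_refl _) hcon (d + 1) le_rfl
  have hb := lag_bound T (fun x : ℝ => (x : ℂ))
    (fun x _ y _ hxy => Complex.ofReal_injective hxy) φ (by omega) 0
  have hP : ∀ k ∈ T, ∏ l ∈ T.erase k, (‖(0 : ℂ) - (l : ℂ)‖ / ‖(k : ℂ) - (l : ℂ)‖)
      ≤ (4 * d / (s * h)) ^ d := by
    intro k hk
    have hcard : (T.erase k).card = d := by rw [Finset.card_erase_of_mem hk, hT1]; omega
    have hpc : ∏ l ∈ T.erase k, (4 * (d : ℝ) / (s * h)) = (4 * d / (s * h)) ^ d := by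
      rw [Finset.prod_const, hcard]
    rw [← hpc]
    apply Finset.prod_le_prod (fun l _ => by positivity)
    intro l hl
    have hlT := Finset.mem_of_mem_erase hl
    have hne : k ≠ l := (Finset.ne_of_mem_erase hl).symm
    have h1 := (hT2 l hlT).1
    have h2 := hT3 k hk l hlT hne
    have e1 : ‖(0 : ℂ) - (l : ℂ)‖ ≤ 2 := by
      rw [zero_sub, norm_neg, Complex.norm_real, Real.norm_eq_abs, abs_of_nonneg (by linarith [h1.1])]
      linarith [h1.2]
    have e2 : ‖(k : ℂ) - (l : ℂ)‖ = |k - l| := by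
      rw [← Complex.ofReal_sub, Complex.norm_real, Real.norm_eq_abs]
    rw [e2]
    have e3 : ‖(0 : ℂ) - (l : ℂ)‖ / |k - l| ≤ 2 / (s * h / (2 * d)) :=
      div_le_div₀ (by norm_num) e1 hr h2
    refine le_trans e3 (le_of_eq ?_)
    field_simp
    norm_num
  have hlt : ∑ k ∈ T, ‖φ.eval ((k : ℝ) : ℂ)‖ * ∏ l ∈ T.erase k, (‖(0 : ℂ) - (l : ℂ)‖ / ‖(k : ℂ) - (l : ℂ)‖)
      < ∑ k ∈ T, lam * (4 * d / (s * h)) ^ d := by
    apply Finset.sum_lt_sum_of_nonempty
    · rw [← Finset.card_pos]; omega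
    · intro k hk
      have h1 := (hT2 k hk).2
      have h2 := hP k hk
      have h3 : 0 ≤ ∏ l ∈ T.erase k, (‖(0 : ℂ) - (l : ℂ)‖ / ‖(k : ℂ) - (l : ℂ)‖) :=
        Finset.prod_nonneg fun _ _ => by positivity
      have h4 : 0 < (4 * d / (s * h)) ^ d := by positivity
      calc _ ≤ ‖φ.eval ((k : ℝ) : ℂ)‖ * (4 * d / (s * h)) ^ d :=
            mul_le_mul_of_nonneg_left h2 (norm_nonneg _)
        _ < _ := mul_lt_mul_of_pos_right h1 h4
  rw [Finset.sum_const, hT1, nsmul_eq_mul] at hlt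
  have hfin : ((d + 1 : ℕ) : ℝ) * (lam * (4 * d / (s * h)) ^ d) ≤ ‖φ.eval 0‖ := by
    have e1 : lam * (4 * d / (s * h)) ^ d = (1 / 2) ^ d * ‖φ.eval 0‖ := by
      rw [hlam, mul_right_comm, ← mul_pow]
      congr 2
      field_simp
      norm_num
    rw [e1]
    have e2 : ((d + 1 : ℕ) : ℝ) ≤ 2 ^ d := by
      exact_mod_cast (Nat.lt_pow_self (by norm_num : 1 < 2) : d < 2 ^ d)
    have e3 : ((d + 1 : ℕ) : ℝ) * (1 / 2) ^ d ≤ 1 := by
      rw [one_div, inv_pow, ← div_eq_mul_inv, div_le_one (by positivity)]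
      exact e2
    calc ((d + 1 : ℕ) : ℝ) * ((1 / 2) ^ d * ‖φ.eval 0‖)
        = (((d + 1 : ℕ) : ℝ) * (1 / 2) ^ d) * ‖φ.eval 0‖ := by ring
      _ ≤ 1 * ‖φ.eval 0‖ := mul_le_mul_of_nonneg_right e3 (norm_nonneg _)
      _ = ‖φ.eval 0‖ := one_mul _
  linarith

/-- the product of the distances of integer nodes -/
lemma prod_nodes (d k : ℕ) (hk : k ≤ d) :
    ∏ l ∈ (range (d + 1)).erase k, |(k : ℝ) - (l : ℝ)| = (k.factorial : ℝ) * ((d - k).factorial : ℝ) := by
  obtain ⟨m, rfl⟩ := Nat.exists_eq_add_of_le hk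
  have e1 : ∏ l ∈ (range (k + m + 1)).erase k, |(k : ℝ) - (l : ℝ)|
      = ∏ l ∈ range (k + (m + 1)), (if l = k then 1 else |(k : ℝ) - (l : ℝ)|) := by
    rw [← Finset.mul_prod_erase (range (k + (m + 1))) _ (Finset.mem_range.2 (by omega : k < k + (m + 1)))]
    rw [if_pos rfl, one_mul]
    apply Finset.prod_congr rfl
    intro l hl
    rw [if_neg (Finset.ne_of_mem_erase hl)]
  rw [e1, Finset.prod_range_add, Finset.prod_range_succ']
  have e2 : ∏ x ∈ range k, (if x = k then 1 else |(k : ℝ) - (x : ℝ)|) = (k.factorial : ℝ) := by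
    rw [← Finset.prod_range_reflect, ← Finset.prod_range_add_one_eq_factorial]
    push_cast
    apply Finset.prod_congr rfl
    intro x hx
    rw [Finset.mem_range] at hx
    rw [if_neg (by omega)]
    have : ((k - 1 - x : ℕ) : ℝ) = (k : ℝ) - 1 - x := by
      rw [Nat.cast_sub (by omega), Nat.cast_sub (by omega)]
      simp
    rw [this, abs_of_nonneg (by
      have : (0 : ℝ) ≤ (x : ℝ) := Nat.cast_nonneg _
      linarith)]
    ring
  have e3 : ∏ x ∈ range m, (if k + (x + 1) = k then 1 else |(k : ℝ) - ((k + (x + 1) : ℕ) : ℝ)|)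
      = (m.factorial : ℝ) := by
    rw [← Finset.prod_range_add_one_eq_factorial]
    push_cast
    apply Finset.prod_congr rfl
    intro x _
    rw [if_neg (by omega)]
    rw [show (k : ℝ) - (k + (x + 1)) = -((x : ℝ) + 1) by ring, abs_neg, abs_of_nonneg (by positivity)]
  rw [e2, e3]
  simp

theorem sb2 : S_SB2 := by
  intro φ d hφ
  by_contra hcon
  push Not at hcon
  set v : ℕ → ℝ := fun k => -1 + 2 * k / d with hv
  have hv1 : ∀ k ∈ range (d + 1), |v k| ≤ 1 := by
    intro k hk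
    rw [Finset.mem_range] at hk
    have hk' : (k : ℝ) ≤ d := by exact_mod_cast (by omega : k ≤ d)
    have hk0 : (0 : ℝ) ≤ k := Nat.cast_nonneg _
    have : (k : ℝ) / d ≤ 1 := div_le_one_of_le₀ hk' (Nat.cast_nonneg _)
    have h0 : 0 ≤ (k : ℝ) / d := by positivity
    rw [abs_le, hv]
    constructor
    · show -1 ≤ -1 + 2 * (k : ℝ) / d
      rw [mul_div_assoc]; linarith
    · show -1 + 2 * (k : ℝ) / d ≤ 1
      rw [mul_div_assoc]; linarith
  have hdiff : ∀ k l : ℕ, ‖((v k : ℝ) : ℂ) - ((v l : ℝ) : ℂ)‖ = 2 / d * |(k : ℝ) - (l : ℝ)| := by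
    intro k l
    rw [← Complex.ofReal_sub, Complex.norm_real, Real.norm_eq_abs, hv]
    have : (-1 + 2 * (k : ℝ) / d) - (-1 + 2 * (l : ℝ) / d) = 2 / d * ((k : ℝ) - l) := by ring
    rw [this, abs_mul, abs_of_nonneg (by positivity)]
  have hinj : Set.InjOn (fun k : ℕ => ((v k : ℝ) : ℂ)) (range (d + 1)) := by
    intro k hk l hl hkl
    by_contra hne
    have h1 := hdiff k l
    simp only at hkl
    rw [hkl, sub_self, norm_zero] at h1
    rw [Finset.coe_range, Set.mem_Iio] at hk hl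
    have hd : (0 : ℝ) < d := by exact_mod_cast (by omega : 0 < d)
    have h2 : 0 < |(k : ℝ) - l| := abs_pos.2 (sub_ne_zero.2 (by exact_mod_cast hne))
    have h3 : 0 < 2 / (d : ℝ) * |(k : ℝ) - l| := by positivity
    linarith
  have hb := lag_bound (range (d + 1)) (fun k : ℕ => ((v k : ℝ) : ℂ)) hinj φ (by simp; omega)
    Complex.I
  have hP : ∀ k ∈ range (d + 1), ∏ l ∈ (range (d + 1)).erase k,
      (‖Complex.I - ((v l : ℝ) : ℂ)‖ / ‖((v k : ℝ) : ℂ) - ((v l : ℝ) : ℂ)‖)
      ≤ (3 / 4 * d) ^ d / ((k.factorial : ℝ) * ((d - k).factorial : ℝ)) := by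
    intro k hk
    have hk' : k ≤ d := by rw [Finset.mem_range] at hk; omega
    have hcard : ((range (d + 1)).erase k).card = d := by
      rw [Finset.card_erase_of_mem hk, Finset.card_range]; omega
    have e1 : ∏ l ∈ (range (d + 1)).erase k,
        (‖Complex.I - ((v l : ℝ) : ℂ)‖ / ‖((v k : ℝ) : ℂ) - ((v l : ℝ) : ℂ)‖)
        ≤ ∏ l ∈ (range (d + 1)).erase k, ((3 / 4 * d) / |(k : ℝ) - (l : ℝ)|) := by
      apply Finset.prod_le_prod
      · intro l _; positivity
      · intro l hl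
        have hl1 := hv1 l (Finset.mem_of_mem_erase hl)
        have hlk := Finset.ne_of_mem_erase hl
        have hl' := Finset.mem_range.1 (Finset.mem_of_mem_erase hl)
        have hd : (0 : ℝ) < d := by exact_mod_cast (by omega : 0 < d)
        have hkl : 0 < |(k : ℝ) - l| :=
          abs_pos.2 (sub_ne_zero.2 (by exact_mod_cast hlk.symm))
        rw [hdiff k l]
        have hn : ‖Complex.I - ((v l : ℝ) : ℂ)‖ ≤ 3 / 2 := by
          have h1 : ‖Complex.I - ((v l : ℝ) : ℂ)‖ ^ 2 = 1 + (v l) ^ 2 := by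
            rw [Complex.sq_norm, Complex.normSq_apply]
            simp
            ring
          have h2 : (v l) ^ 2 ≤ 1 := by
            rw [← sq_abs]
            nlinarith [abs_nonneg (v l)]
          nlinarith [norm_nonneg (Complex.I - ((v l : ℝ) : ℂ))]
        rw [div_le_div_iff₀ (by positivity) hkl]
        have : 3 / 4 * (d : ℝ) * (2 / d * |(k : ℝ) - l|) = 3 / 2 * |(k : ℝ) - l| := by
          field_simp
          norm_num
        rw [this]
        exact mul_le_mul_of_nonneg_right hn hkl.le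
    refine le_trans e1 (le_of_eq ?_)
    rw [Finset.prod_div_distrib, Finset.prod_const, hcard, prod_nodes d k hk']
  have hsum : ∑ k ∈ range (d + 1), (3 / 4 * (d : ℝ)) ^ d / ((k.factorial : ℝ) * ((d - k).factorial : ℝ))
      ≤ 16 ^ d := by
    have e1 : ∀ k ∈ range (d + 1),
        (3 / 4 * (d : ℝ)) ^ d / ((k.factorial : ℝ) * ((d - k).factorial : ℝ))
        = (3 / 4 * (d : ℝ)) ^ d / (d.factorial : ℝ) * (d.choose k : ℝ) := by
      intro k hk
      have hk' : k ≤ d := by rw [Finset.mem_range] at hk; omega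
      have := Nat.choose_mul_factorial_mul_factorial hk'
      have h' : (d.choose k : ℝ) * (k.factorial : ℝ) * ((d - k).factorial : ℝ) = (d.factorial : ℝ) := by
        exact_mod_cast this
      have h1 : (k.factorial : ℝ) ≠ 0 := by exact_mod_cast k.factorial_ne_zero
      have h2 : ((d - k).factorial : ℝ) ≠ 0 := by exact_mod_cast (d - k).factorial_ne_zero
      have h3 : (d.factorial : ℝ) ≠ 0 := by exact_mod_cast d.factorial_ne_zero
      have h4 : (d.choose k : ℝ) ≠ 0 := by exact_mod_cast (Nat.choose_pos hk').ne'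
      rw [← h']
      field_simp
    rw [Finset.sum_congr rfl e1, ← Finset.mul_sum]
    have e2 : ∑ k ∈ range (d + 1), (d.choose k : ℝ) = 2 ^ d := by
      have := Nat.sum_range_choose d
      exact_mod_cast this
    rw [e2]
    have e3 : (d : ℝ) ^ d / (d.factorial : ℝ) ≤ Real.exp d :=
      Real.pow_div_factorial_le_exp _ (Nat.cast_nonneg _) _
    have e4 : Real.exp (d : ℝ) ≤ 3 ^ d := by
      rw [← mul_one (d : ℝ), Real.exp_nat_mul]
      exact pow_le_pow_left₀ (Real.exp_nonneg _) (by linarith [Real.exp_one_lt_d9]) _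
    calc (3 / 4 * (d : ℝ)) ^ d / (d.factorial : ℝ) * 2 ^ d
        = (3 / 4) ^ d * 2 ^ d * ((d : ℝ) ^ d / (d.factorial : ℝ)) := by rw [mul_pow]; ring
      _ ≤ (3 / 4) ^ d * 2 ^ d * 3 ^ d := by
          apply mul_le_mul_of_nonneg_left (e3.trans e4) (by positivity)
      _ = (9 / 2) ^ d := by rw [← mul_pow, ← mul_pow]; norm_num
      _ ≤ 16 ^ d := pow_le_pow_left₀ (by norm_num) (by norm_num) _
  have h16 : (0 : ℝ) < 16 ^ d := by positivity
  have hlt : ∑ k ∈ range (d + 1), ‖φ.eval ((v k : ℝ) : ℂ)‖ * ∏ l ∈ (range (d + 1)).erase k,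
      (‖Complex.I - ((v l : ℝ) : ℂ)‖ / ‖((v k : ℝ) : ℂ) - ((v l : ℝ) : ℂ)‖)
      < ∑ k ∈ range (d + 1), (‖φ.eval Complex.I‖ / 16 ^ d) *
        ((3 / 4 * (d : ℝ)) ^ d / ((k.factorial : ℝ) * ((d - k).factorial : ℝ))) := by
    apply Finset.sum_lt_sum_of_nonempty (by simp)
    intro k hk
    have h1 := hcon (v k) (hv1 k hk)
    have h2 := hP k hk
    have h1' : ‖φ.eval ((v k : ℝ) : ℂ)‖ < ‖φ.eval Complex.I‖ / 16 ^ d := by
      rw [lt_div_iff₀ h16]; linarith
    have h4 : 0 < (3 / 4 * (d : ℝ)) ^ d / ((k.factorial : ℝ) * ((d - k).factorial : ℝ)) := by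
      have h1 : (0 : ℝ) < (k.factorial : ℝ) := by exact_mod_cast k.factorial_pos
      have h2 : (0 : ℝ) < ((d - k).factorial : ℝ) := by exact_mod_cast (d - k).factorial_pos
      rcases Nat.eq_zero_or_pos d with h | h
      · subst h; simp at *; positivity
      · have : (0 : ℝ) < d := by exact_mod_cast h
        positivity
    calc _ ≤ ‖φ.eval ((v k : ℝ) : ℂ)‖ *
          ((3 / 4 * (d : ℝ)) ^ d / ((k.factorial : ℝ) * ((d - k).factorial : ℝ))) :=
          mul_le_mul_of_nonneg_left h2 (norm_nonneg _)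
      _ < _ := mul_lt_mul_of_pos_right h1' h4
  rw [← Finset.mul_sum] at hlt
  have hle : (‖φ.eval Complex.I‖ / 16 ^ d) * ∑ k ∈ range (d + 1),
      ((3 / 4 * (d : ℝ)) ^ d / ((k.factorial : ℝ) * ((d - k).factorial : ℝ)))
      ≤ (‖φ.eval Complex.I‖ / 16 ^ d) * 16 ^ d :=
    mul_le_mul_of_nonneg_left hsum (by positivity)
  rw [div_mul_cancel₀ _ h16.ne'] at hle
  exact absurd (lt_of_le_of_lt hb (lt_of_lt_of_le hlt hle)) (lt_irrefl _)

end Pool.Agent.W721.GB
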